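import Pool.Agent.Lib.MP_94420a_co_A.Asm

/-!
# MP_94420a_co: the asymptotic form of Gallai's conjecture is equivalent to the exact one

Many copies of a connected graph `H` are attached by bridges to a long path, `r` copies at every
vertex of the path. A path of the glued graph meets every copy in a path, and it meets two copies at
most, using two bridges if it does. So the number of paths needed for `m` copies is at least `m` times
the number needed for `H`, minus `m / 2`.
-/

set_option autoImplicit false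

namespace Pool.Agent.Results.MP_94420a_co.AsymptoticIsExact

theorem result (a : ℝ) (ha : 0 ≤ a) :
    (∀ (D : ℕ) (ε : ℝ), 0 < ε → ∀ N : ℕ, ∃ n : ℕ, N ≤ n ∧
      ∀ (W : Type) [Fintype W] (G : SimpleGraph W), Fintype.card W = n → G.Connected →
        (∀ w, (G.neighborSet w).ncard ≤ D) →
        ∃ (k : ℕ) (u v : Fin k → W) (p : (i : Fin k) → G.Walk (u i) (v i)),
          (k : ℝ) ≤ (a + ε) * n ∧ (∀ i, (p i).IsPath) ∧
          ∀ e ∈ G.edgeSet, ∃! i, e ∈ (p i).edges) ↔
    ∀ (V : Type) [Fintype V] (G : SimpleGraph V), G.Connected →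
      ∃ (k : ℕ) (u v : Fin k → V) (p : (i : Fin k) → G.Walk (u i) (v i)),
        k ≤ ⌊a * Fintype.card V + 1 / 2⌋₊ ∧ (∀ i, (p i).IsPath) ∧
        ∀ e ∈ G.edgeSet, ∃! i, e ∈ (p i).edges := by
  constructor
  · intro hyp V _ G hG
    obtain ⟨k, u, v, p, hk, hp, hd⟩ :=
      Pool.Agent.Lib.MP_94420a_co_A.exact_of_asymptotic a ha hyp V G hG
    exact ⟨k, u, v, p, Nat.le_floor hk, hp, hd⟩
  · intro hyp D ε hε N
    obtain ⟨M, hM⟩ := exists_nat_gt (1 / (2 * ε))
    refine ⟨max N M, le_max_left _ _, ?_⟩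
    intro W _ G hW hG _
    obtain ⟨k, u, v, p, hk, hp, hd⟩ := hyp W G hG
    refine ⟨k, u, v, p, ?_, hp, hd⟩
    have h1 : (k : ℝ) ≤ a * Fintype.card W + 1 / 2 := by
      have h2 : ((⌊a * Fintype.card W + 1 / 2⌋₊ : ℕ) : ℝ) ≤ a * Fintype.card W + 1 / 2 :=
        Nat.floor_le (by positivity)
      have h3 : (k : ℝ) ≤ ((⌊a * Fintype.card W + 1 / 2⌋₊ : ℕ) : ℝ) := by exact_mod_cast hk
      exact h3.trans h2
    rw [hW] at h1
    have h4 : (M : ℝ) ≤ ((max N M : ℕ) : ℝ) := by exact_mod_cast le_max_right N M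
    have h5 : 1 / 2 ≤ ε * ((max N M : ℕ) : ℝ) := by
      rw [div_lt_iff₀ (by positivity)] at hM
      nlinarith
    linarith

end Pool.Agent.Results.MP_94420a_co.AsymptoticIsExact
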