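import Mathlib
import Pool.Agent.Lib.MP_94420a_co_T.Fin2

/-!
The bound `2n/3` of Dean-Kouider and Yan on path decompositions is improved by a constant factor for
all connected graphs with at least four vertices: every graph `G` on `n` vertices, `t` of which lie in
components of `G` that are triangles, splits into at most `2n/3 - (n - t)/32400` paths; a connected
graph on `n ≥ 4` vertices splits into at most `(2/3 - 1/32400) n` paths.
-/

open Classical in
theorem Pool.Agent.Results.MP_94420a_co.BelowTwoThirds.result {V : Type} [Fintype V] [Nonempty V]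
    (G : SimpleGraph V) :
    ∃ (k : ℕ) (u v : Fin k → V) (p : (i : Fin k) → G.Walk (u i) (v i)),
      (k : ℝ) ≤ 2 / 3 * Fintype.card V -
        ((Fintype.card V : ℝ) - ((Finset.univ.filter fun x => ∃ a b : V,
          G.Adj x a ∧ G.Adj x b ∧ G.Adj a b ∧
            ∀ w, (G.Adj x w → w = a ∨ w = b) ∧ (G.Adj a w → w = x ∨ w = b) ∧
              (G.Adj b w → w = x ∨ w = a)).card : ℝ)) / 32400 ∧
      (G.Connected → 4 ≤ Fintype.card V → (k : ℝ) ≤ (2 / 3 - 1 / 32400) * Fintype.card V) ∧
      (∀ i, (p i).IsPath) ∧ ∀ e ∈ G.edgeSet, ∃! i, e ∈ (p i).edges := by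
  obtain ⟨k, u, v, p, h1, h2, h3, h4⟩ := Pool.Agent.Lib.MP_94420a_co.final2 G
  refine ⟨k, u, v, p, ?_, h2, h3, h4⟩
  have e : (Finset.univ.filter fun x => Pool.Agent.Lib.MP_94420a_co.InTri G x) =
      Finset.univ.filter fun x => ∃ a b : V, G.Adj x a ∧ G.Adj x b ∧ G.Adj a b ∧
        ∀ w, (G.Adj x w → w = a ∨ w = b) ∧ (G.Adj a w → w = x ∨ w = b) ∧
          (G.Adj b w → w = x ∨ w = a) := by
    ext x
    simp only [Finset.mem_filter, Pool.Agent.Lib.MP_94420a_co.InTri]
  rw [← e]
  exact h1
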