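import Mathlib
import Pool.Agent.Lib.MP_94420a_co.Final

/-!
An asymptotic form of Gallai's conjecture: the edges of every finite graph `G` on `n` vertices split
into at most `(1/2 + 8/√d) n + b/2` paths, for every `d ≥ 1`, where `b` is the number of vertices of
even degree between `1` and `d - 1` (so `b = 0` if the minimum degree is at least `d`).
-/

open Classical in
theorem Pool.Agent.Results.MP_94420a_co.LargeMinDegree.result {V : Type} [Fintype V] [Nonempty V]
    (G : SimpleGraph V) (d : ℕ) (hd : 0 < d) :
    ∃ (k : ℕ) (u v : Fin k → V) (p : (i : Fin k) → G.Walk (u i) (v i)),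
      (k : ℝ) ≤ (1 / 2 + 8 / √(d : ℝ)) * Fintype.card V +
        ((Finset.univ.filter fun v => Even (G.degree v) ∧ 0 < G.degree v ∧ G.degree v < d).card : ℝ)
          / 2 ∧
      (∀ i, (p i).IsPath) ∧ ∀ e ∈ G.edgeSet, ∃! i, e ∈ (p i).edges :=
  Pool.Agent.Lib.MP_94420a_co.final G d hd
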